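import Pool.Agent.Y657.EM.Final

/-!
# Monotonicity of the one-electron energy for potentials convex in the squared radius

For any number of nuclei, and with no condition on the two configurations beyond the distance
inequalities, two conditions on `w` suffice in place of complete monotonicity of `s ↦ w(√s)`:
this function is nonincreasing and convex on the open half line.
-/

set_option autoImplicit false

open MeasureTheory

namespace Pool.Agent.Results.MP_bcd61f_mp.ConvexInRSquare

/-- The energy inequality of the problem for any number of nuclei, when each `w j` is radial,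
locally integrable, nonincreasing, and a convex function of the squared radius on `(0, ∞)`. -/
theorem result :
  ∀ (K : ℕ) (z : Fin K → ℝ) (w : Fin K → EuclideanSpace ℝ (Fin 3) → ℝ),
    (∀ j, 0 < z j) →
    (∀ j, MeasureTheory.LocallyIntegrable (w j)) →
    (∀ j, ∀ x y : EuclideanSpace ℝ (Fin 3), ‖x‖ = ‖y‖ → w j x = w j y) →
    (∀ j, ∀ x y : EuclideanSpace ℝ (Fin 3), x ≠ 0 → ‖x‖ ≤ ‖y‖ → w j y ≤ w j x) →
    (∀ j, ConvexOn ℝ (Set.Ioi 0)
      (fun s => w j (Real.sqrt s • (EuclideanSpace.single 0 1 : EuclideanSpace ℝ (Fin 3))))) →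
    ∀ R R' : Fin K → EuclideanSpace ℝ (Fin 3),
      (∀ i j, dist (R i) (R j) ≤ dist (R' i) (R' j)) →
      (⨅ (φ : EuclideanSpace ℝ (Fin 3) → ℝ)
          (_ : ContDiff ℝ 1 φ ∧ HasCompactSupport φ ∧ ∫ x, φ x ^ 2 = 1),
          ((((∫ x, ‖fderiv ℝ φ x‖ ^ 2) -
              ∫ x, (∑ j, z j * w j (x - R j)) * φ x ^ 2 : ℝ)) : EReal))
      ≤
      (⨅ (φ : EuclideanSpace ℝ (Fin 3) → ℝ)
          (_ : ContDiff ℝ 1 φ ∧ HasCompactSupport φ ∧ ∫ x, φ x ^ 2 = 1),
          ((((∫ x, ‖fderiv ℝ φ x‖ ^ 2) -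
              ∫ x, (∑ j, z j * w j (x - R' j)) * φ x ^ 2 : ℝ)) : EReal)) :=
  fun K z w hz hli hrad hmono hconv R R' hle =>
    Pool.Agent.Y657.EM.convex_sq K z w hz hli hrad hmono hconv R R' hle

end Pool.Agent.Results.MP_bcd61f_mp.ConvexInRSquare
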