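import Pool.Agent.Y657.EM.Final

/-!
# Monotonicity of the one-electron energy for general radial nonincreasing potentials

The variational ground-state energy does not decrease when all distances between the nuclei are
weakly increased, provided that there are at most six nuclei, or one of the two configurations is
coplanar, or the two configurations satisfy one linear relation, or they are joined by an
expansion in five-dimensional space.
-/

set_option autoImplicit false

open MeasureTheory

namespace Pool.Agent.Results.MP_bcd61f_mp.FiveDim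

/-- Euclidean three-space. -/
abbrev E := EuclideanSpace ℝ (Fin 3)

/-- The variational ground-state energy of `-Δ - ∑ z j * w j (x - R j)`, as in the frozen
statement. -/
noncomputable def energy {K : ℕ} (z : Fin K → ℝ) (w : Fin K → E → ℝ) (R : Fin K → E) : EReal :=
  ⨅ (φ : E → ℝ) (_ : ContDiff ℝ 1 φ ∧ HasCompactSupport φ ∧ ∫ x, φ x ^ 2 = 1),
    (((∫ x, ‖fderiv ℝ φ x‖ ^ 2) - ∫ x, (∑ j, z j * w j (x - R j)) * φ x ^ 2 : ℝ) : EReal)

/-- Configurations `p t` in five-dimensional space whose mutual distances are continuous and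
nondecreasing in `t ∈ [0, 1]`, and are those of `R` at `t = 0` and those of `R'` at `t = 1`. -/
def Joined {K : ℕ} (R R' : Fin K → E) : Prop :=
  ∃ p : ℝ → Fin K → EuclideanSpace ℝ (Fin 5),
    (∀ i j, ContinuousOn (fun t => dist (p t i) (p t j)) (Set.Icc 0 1)) ∧
    (∀ i j, MonotoneOn (fun t => dist (p t i) (p t j)) (Set.Icc 0 1)) ∧
    (∀ i j, dist (p 0 i) (p 0 j) = dist (R i) (R j)) ∧
    ∀ i j, dist (p 1 i) (p 1 j) = dist (R' i) (R' j)

/-- The energy inequality of the problem, for arbitrary radial nonincreasing locally integrable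
`w j` (one for each nucleus), under a condition on the two configurations only. -/
theorem result (K : ℕ) (z : Fin K → ℝ) (w : Fin K → E → ℝ) (hz : ∀ j, 0 < z j)
    (hli : ∀ j, LocallyIntegrable (w j))
    (hrad : ∀ j, ∀ x y : E, ‖x‖ = ‖y‖ → w j x = w j y)
    (hmono : ∀ j, ∀ x y : E, x ≠ 0 → ‖x‖ ≤ ‖y‖ → w j y ≤ w j x)
    (R R' : Fin K → E) (hle : ∀ i j, dist (R i) (R j) ≤ dist (R' i) (R' j))
    (hyp : K ≤ 6 ∨ Coplanar ℝ (Set.range R) ∨ Coplanar ℝ (Set.range R') ∨
      (∃ u v : E, (u ≠ 0 ∨ v ≠ 0) ∧ ∀ i j, inner ℝ u (R i - R j) = inner ℝ v (R' i - R' j)) ∨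
      Joined R R') :
    energy z w R ≤ energy z w R' :=
  Pool.Agent.Y657.EM.five_dim K z w hz hli hrad hmono R R' hle hyp

end Pool.Agent.Results.MP_bcd61f_mp.FiveDim
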